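import Pool.Agent.H22.GS.All
import Pool.Agent.H72.GS2.Targets

/-!
# Theorem (G) (MP_c59857_nt): section 1 in the form used by section 2
-/

set_option autoImplicit false

namespace Pool.Agent.H22.GS.All

/-- the statement of `Pool.Agent.H72.GS2` -/
theorem aEBT72 : Pool.Agent.H72.GS2.T_EBT := aEBT

end Pool.Agent.H22.GS.All
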