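import Pool.Agent.H1.G3.BS
import Pool.Agent.H1.G3.RN
import Pool.Agent.H13.GSW.NCP
import Pool.Agent.H14.G3.ER
import Pool.Agent.H14.G3.RM
import Pool.Agent.H14.G3.RS
import Pool.Agent.H14.G3.SN
import Pool.Agent.H14.G3.SV
import Pool.Agent.H17.G3.RC
import Pool.Agent.H18.G3.SZ
import Pool.Agent.H18.GSW.SEP
import Pool.Agent.H20.ENM.QMS
import Pool.Agent.H22.GS.Bridge
import Pool.Agent.H23.G3.RE
import Pool.Agent.H23.G3.RP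
import Pool.Agent.H24.GSW.GRM
import Pool.Agent.H27.GSW.BRK
import Pool.Agent.H28.GS2.OPD
import Pool.Agent.H28.GS2.PCS
import Pool.Agent.H28.GS2.UNI
import Pool.Agent.H3.BES.Fin
import Pool.Agent.H30.G3.BA
import Pool.Agent.H30.G3.EB
import Pool.Agent.H30.G3.REG
import Pool.Agent.H30.G3.RL
import Pool.Agent.H30.GSW.KER
import Pool.Agent.H31.G3.INV
import Pool.Agent.H35.ENL.GSM
import Pool.Agent.H36.G3.BN
import Pool.Agent.H36.G3.RA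
import Pool.Agent.H38.EL.BAB
import Pool.Agent.H38.GSC.D2G
import Pool.Agent.H38.GSC.NRQ
import Pool.Agent.H4.G3.SW
import Pool.Agent.H46.G3.ED
import Pool.Agent.H46.G3.WQ
import Pool.Agent.H48.GSW.ONG
import Pool.Agent.H48.GSW.SAZ
import Pool.Agent.H5.GS3.E3
import Pool.Agent.H50.GSW.BSL
import Pool.Agent.H50.GSW.DQG
import Pool.Agent.H50.GSW.UNQ
import Pool.Agent.H51.GS3.EZ
import Pool.Agent.H52.G3.RB
import Pool.Agent.H55.G3.BP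
import Pool.Agent.H55.GSW.BVT
import Pool.Agent.H56.G3.BL
import Pool.Agent.H56.G3.RG
import Pool.Agent.H56.G3.RO
import Pool.Agent.H6.GSW.CUR
import Pool.Agent.H6.N4D.All
import Pool.Agent.H61.G3.EQ
import Pool.Agent.H61.G3.SC
import Pool.Agent.H62.ENL.KCH
import Pool.Agent.H63.G3.EW
import Pool.Agent.H67.GSC.FNL
import Pool.Agent.H67.GSC.LDG
import Pool.Agent.H67.GSW.BNM
import Pool.Agent.H67.GSW.PCA
import Pool.Agent.H69.G3.IF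
import Pool.Agent.H69.G3.SB
import Pool.Agent.H7.GS3.CLU
import Pool.Agent.H7.GS3.SH
import Pool.Agent.H70.GSC.CLA
import Pool.Agent.H70.GSW.BVN
import Pool.Agent.H72.EN.All
import Pool.Agent.H72.EN.HL
import Pool.Agent.H72.GS2.CHG
import Pool.Agent.H72.GS2.EN1
import Pool.Agent.H72.GS2.LVG
import Pool.Agent.H72.GS2.TEB
import Pool.Agent.H73.GSW.CHW
import Pool.Agent.H76.G3.SA2
import Pool.Agent.H76.GSW.GEX
import Pool.Agent.H78.GS.All3a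
import Pool.Agent.H8.G3.SG
import Pool.Agent.H80.G3.EJ
import Pool.Agent.H81.GS.EN2
import Pool.Agent.H84.GS.GMQ
import Pool.Agent.H84.GS.MNG
import Pool.Agent.H84.GS.MNX
import Pool.Agent.H86.G3.IC
import Pool.Agent.H86.G3.SF
import Pool.Agent.H87.GS2.DLG
import Pool.Agent.H89.G3.II
import Pool.Agent.H89.G3.RX
import Pool.Agent.H89.G3.SA1
import Pool.Agent.H91.G3.RU
import Pool.Agent.H92.G3.BE
import Pool.Agent.H93.GS.Asm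
import Pool.Agent.H95.GSC.CRL
import Pool.Agent.H95.GSC.LFT
import Pool.Agent.H95.GSC.ZSH
import Pool.Agent.H97.GSC.SPL

/-!
# Theorem (G) (MP_c59857_nt): composition

All rows of the three sections of theorem (G) are put together. The last theorem `gfu` is the
finite form of theorem (G), without hypotheses.
-/

set_option autoImplicit false

namespace Pool.Agent.H22.GS.Fin

theorem aSIZ : Pool.Agent.H6.N4D.T_SIZ := Pool.Agent.H6.N4D.All.tSIZ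
theorem aTWO : Pool.Agent.H6.N4D.T_TWO := Pool.Agent.H6.N4D.All.tTWO
theorem aWLG : Pool.Agent.H6.N4D.T_WLG := Pool.Agent.H6.N4D.All.tWLG
theorem aQMS : Pool.Agent.H70.EN.T_QMS := Pool.Agent.H20.ENM.pf_QMS
theorem aBAB : Pool.Agent.H72.EN.T_BAB := Pool.Agent.H38.EL.pf_BAB
theorem aGSM : Pool.Agent.H72.EN.T_GSM := Pool.Agent.H35.ENL.pf_GSM
theorem aHAR : Pool.Agent.H72.EN.T_HAR := Pool.Agent.H72.EN.pf_HAR'
theorem aKCH : Pool.Agent.H72.EN.T_KCH := Pool.Agent.H62.ENL.pf_KCH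
theorem aLIM : Pool.Agent.H72.EN.T_LIM := Pool.Agent.H72.EN.pf_LIM'
theorem aTEL : Pool.Agent.H72.EN.T_TEL := Pool.Agent.H72.EN.tel
theorem aEBT : Pool.Agent.H72.GS2.T_EBT := Pool.Agent.H22.GS.All.aEBT72
theorem aBUN : Pool.Agent.H78.GS.T_BUN := Pool.Agent.H78.GS.All.aBUN
theorem aBES : Pool.Agent.H93.EB.T_BES := Pool.Agent.H3.BES.bes
theorem aSN : Pool.Agent.H56.G3.T_SN := Pool.Agent.H14.G3.pf_SN aSIZ
theorem aRE : Pool.Agent.H56.G3.T_RE := Pool.Agent.H23.G3.pf_RE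
theorem aOPD : Pool.Agent.H6.GS2.T_OPD := Pool.Agent.H28.GS2.pf_OPD
theorem aOPT : Pool.Agent.H93.GS.T_OPT := Pool.Agent.H28.GS2.pf_OPT
theorem aBA : Pool.Agent.H56.G3.T_BA := Pool.Agent.H30.G3.pf_BA
theorem aEB : Pool.Agent.H56.G3.T_EB := Pool.Agent.H30.G3.pf_EB aTWO
theorem aSW : Pool.Agent.H56.G3.T_SW := Pool.Agent.H4.G3.pf_SW
theorem aWQ : Pool.Agent.H56.G3.T_WQ := Pool.Agent.H46.G3.pf_WQ
theorem aSAZ : Pool.Agent.H6.GS2.T_SAZ := Pool.Agent.H48.GSW.pf_SAZ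
theorem aUNQ : Pool.Agent.H6.GS2.T_UNQ := Pool.Agent.H50.GSW.pf_UNQ
theorem aEZ : Pool.Agent.H56.G3.T_EZ := Pool.Agent.H51.GS3.pf_EZ
theorem aRB : Pool.Agent.H56.G3.T_RB := Pool.Agent.H52.G3.pf_RB
theorem aBP : Pool.Agent.H56.G3.T_BP := Pool.Agent.H55.G3.pf_BP
theorem aBVT : Pool.Agent.H6.GS2.T_BVT := Pool.Agent.H55.GSW.pf_BVT
theorem aBL : Pool.Agent.H56.G3.T_BL := Pool.Agent.H56.G3.pf_BL aRB
theorem aRG : Pool.Agent.H56.G3.T_RG := Pool.Agent.H56.G3.pf_RG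
theorem aEQ : Pool.Agent.H56.G3.T_EQ := Pool.Agent.H61.G3.EQ.pf_EQ aRB
theorem aSC : Pool.Agent.H56.G3.T_SC := Pool.Agent.H61.G3.SC.pf_SC
theorem aEW : Pool.Agent.H56.G3.T_EW := Pool.Agent.H63.G3.pf_EW aSIZ aSN
theorem aFNL : Pool.Agent.H70.GSC.T_FNL := Pool.Agent.H67.GSC.pf_FNL
theorem aBNM : Pool.Agent.H6.GS2.T_BNM := Pool.Agent.H67.GSW.pf_BNM
theorem aPCA : Pool.Agent.H6.GS2.T_PCA := Pool.Agent.H67.GSW.pf_PCA
theorem aIF : Pool.Agent.H56.G3.T_IF := Pool.Agent.H69.G3.pf_IF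
theorem aTEB : Pool.Agent.H72.GS2.T_TEB := Pool.Agent.H72.GS2.pf_TEB aOPT
theorem aGEX : Pool.Agent.H6.GS2.T_GEX := Pool.Agent.H76.GSW.pf_GEX
theorem aEJ : Pool.Agent.H56.G3.T_EJ := Pool.Agent.H80.G3.pf_EJ aRB aEW aSN
theorem aGMQ : Pool.Agent.H93.GS.T_GMQ := Pool.Agent.H84.GS.pf_GMQ
theorem aMNG : Pool.Agent.H93.GS.T_MNG := Pool.Agent.H84.GS.pf_MNG
theorem aMNX : Pool.Agent.H72.GS2.T_MNX := Pool.Agent.H84.GS.pf_MNX
theorem aIC : Pool.Agent.H56.G3.T_IC := Pool.Agent.H86.G3.pf_IC aRG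
theorem aSF : Pool.Agent.H56.G3.T_SF := Pool.Agent.H86.G3.pf_SF
theorem aDLG : Pool.Agent.H72.GS2.T_DLG := Pool.Agent.H87.GS2.D.pf_DLG
theorem aII : Pool.Agent.H56.G3.T_II := Pool.Agent.H89.G3.pf_II aRG
theorem aLFT : Pool.Agent.H70.GSC.T_LFT := Pool.Agent.H95.GSC.pf_LFT
theorem aZSH : Pool.Agent.H70.GSC.T_ZSH := Pool.Agent.H95.GSC.pf_ZSH
theorem aSPL : Pool.Agent.H70.GSC.T_SPL := Pool.Agent.H97.GSC.pf_SPL
theorem aER : Pool.Agent.H56.G3.T_ER := Pool.Agent.H14.G3.pf_ER aRG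
theorem aRM : Pool.Agent.H56.G3.T_RM := Pool.Agent.H14.G3.pf_RM aRB
theorem aRS : Pool.Agent.H56.G3.T_RS := Pool.Agent.H14.G3.pf_RS aRB
theorem aSV : Pool.Agent.H56.G3.T_SV := Pool.Agent.H14.G3.pf_SV aSF aSC aSN aSIZ
theorem aRC : Pool.Agent.H56.G3.T_RC := Pool.Agent.H17.G3.pf_RC aRG
theorem aSZ : Pool.Agent.H56.G3.T_SZ := Pool.Agent.H18.G3.pf_SZ aRB aBAB
theorem aGRM : Pool.Agent.H6.GS2.T_GRM := Pool.Agent.H24.GSW.pf_GRM aGEX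
theorem aPCS : Pool.Agent.H6.GS2.T_PCS := Pool.Agent.H28.GS2.pf_PCS aPCA
theorem aUNI : Pool.Agent.H6.GS2.T_UNI := Pool.Agent.H28.GS2.pf_UNI aOPD aBNM aPCA aPCS
theorem aRL : Pool.Agent.H56.G3.T_RL := Pool.Agent.H30.G3.pf_RL aRB
theorem aKER : Pool.Agent.H6.GS2.T_KER := Pool.Agent.H30.GSW.pf_KER aGEX
theorem aINV : Pool.Agent.H56.G3.T_INV := Pool.Agent.H31.G3.pf_INV aRG aIC aII aIF
theorem aRA : Pool.Agent.H56.G3.T_RA := Pool.Agent.H36.G3.pf_RA aRB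
theorem aD2G : Pool.Agent.H70.GSC.T_D2G := Pool.Agent.H38.GSC.pf_D2G aGRM
theorem aNRQ : Pool.Agent.H70.GSC.T_NRQ := Pool.Agent.H38.GSC.pf_NRQ aKER
theorem aED : Pool.Agent.H56.G3.T_ED := Pool.Agent.H46.G3.pf_ED aRB aEW aEJ aEQ aEZ aER aEB aSN aSZ aWQ aBAB
theorem aBSL : Pool.Agent.H6.GS2.T_BSL := Pool.Agent.H50.GSW.pf_BSL aGEX
theorem aDQG : Pool.Agent.H6.GS2.T_DQG := Pool.Agent.H50.GSW.pf_DQG aKER
theorem aCUR : Pool.Agent.H6.GS2.T_CUR := Pool.Agent.H6.GSW.pf_CUR aUNI aGEX aBNM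
theorem aLDG : Pool.Agent.H70.GSC.T_LDG := Pool.Agent.H67.GSC.pf_LDG aBVT aZSH
theorem aBE : Pool.Agent.H56.G3.T_BE := Pool.Agent.H92.G3.pf_BE aRB aRM aINV aBA aEW aSN
theorem aCRL : Pool.Agent.H70.GSC.T_CRL := Pool.Agent.H95.GSC.pf_CRL aGEX aKER
theorem aRN : Pool.Agent.H56.G3.T_RN := Pool.Agent.H1.G3.pf_RN aRB aRS
theorem aNCP : Pool.Agent.H6.GS2.T_NCP := Pool.Agent.H13.GSW.pf_NCP aUNI aGEX
theorem aSEP : Pool.Agent.H6.GS2.T_SEP := Pool.Agent.H18.GSW.pf_SEP aCUR aBNM aBSL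
theorem aCLU : Pool.Agent.H6.GS2.T_CLU := Pool.Agent.H7.GS3.pf_CLU aNCP aSEP aBNM aBSL
theorem aCLA : Pool.Agent.H93.GS.T_CLA := Pool.Agent.H70.GSC.pf_CLA aOPD aBNM aUNQ aSEP aCLU aLFT aCRL aZSH aNRQ aSPL aLDG aD2G aFNL
theorem aBVN : Pool.Agent.H6.GS2.T_BVN := Pool.Agent.H70.GSW.pf_BVN aCUR aSEP aBNM aGEX aBVT
theorem aCHW : Pool.Agent.H6.GS2.T_CHW := Pool.Agent.H73.GSW.pf_CHW aCLA aOPD aBNM aDQG aSAZ aKER
theorem aSA2 : Pool.Agent.H56.G3.T_SA2 := Pool.Agent.H76.G3.pf_SA2 aRB aRN aSF aSV aSN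
theorem aSA1 : Pool.Agent.H56.G3.T_SA1 := Pool.Agent.H89.G3.pf_SA1 aRB aRN aRL aSF aSC aSN
theorem aRU : Pool.Agent.H56.G3.T_RU := Pool.Agent.H91.G3.pf_RU aRB aRS aRN
theorem aRP : Pool.Agent.H56.G3.T_RP := Pool.Agent.H23.G3.pf_RP aRB aRU
theorem aBRK : Pool.Agent.H93.GS.T_BRK := Pool.Agent.H27.GSW.pf_BRK aBVN aOPD aUNQ aSAZ
theorem aONG : Pool.Agent.H6.GS2.T_ONG := Pool.Agent.H48.GSW.pf_ONG aCLA aBRK aOPD aBNM aPCA aDQG aSAZ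
theorem aRO : Pool.Agent.H56.G3.T_RO := Pool.Agent.H56.G3.pf_RO aRB aRM aRU
theorem aSH : Pool.Agent.H56.G3.T_SH := Pool.Agent.H7.GS3.pf_SH aRO aSN
theorem aCH3 : Pool.Agent.H72.GS2.T_CH3 := Pool.Agent.H72.GS2.pf_CH3 aCHW aBAB aQMS
theorem aLVG : Pool.Agent.H93.GS.T_LVG := Pool.Agent.H72.GS2.pf_LVG aONG aDLG aMNX aBAB aQMS
theorem aSG : Pool.Agent.H56.G3.T_SG := Pool.Agent.H8.G3.pf_SG aRB aWQ aSV aSZ aSW aSA1 aSA2 aSN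
theorem aEN2 : Pool.Agent.H93.GS.T_EN2 := Pool.Agent.H81.GS.pf_EN2 aTEL aKCH aHAR aGSM aLIM aBES aLVG aCH3 aMNG aGMQ aDLG aMNX
theorem aRX : Pool.Agent.H56.G3.T_RX := Pool.Agent.H89.G3.pf_RX aRB aRE aRP
theorem aBS : Pool.Agent.H56.G3.T_BS := Pool.Agent.H1.G3.pf_BS aSH aINV aBA aSN aRB
theorem aREG : Pool.Agent.H56.G3.T_REG := Pool.Agent.H30.G3.pf_REG aRA aRC aRX
theorem aSB : Pool.Agent.H56.G3.T_SB := Pool.Agent.H69.G3.pf_SB aREG aSN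
theorem aEN1 : Pool.Agent.H93.GS.T_EN1 := Pool.Agent.H72.GS2.pf_EN1 aTEL aKCH aHAR aGSM aLIM aBAB aTEB aEBT aLVG aMNG aGMQ
theorem aBN : Pool.Agent.H56.G3.T_BN := Pool.Agent.H36.G3.pf_BN aRB aSB aED aBA aBP aBL aBS aBE aSN aWLG
theorem aE3 : Pool.Agent.H93.GS.T_E3 := Pool.Agent.H5.GS3.pf_E3 Pool.Agent.H6.N4D.All.gap aBUN aSG aBN
theorem aGFU : Pool.Agent.H93.GS.T_GFU := Pool.Agent.H93.GS.a_GFU aEN1 aEN2 aE3

/-- theorem (G), uniform finite form -/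
theorem gfu : Pool.Agent.H93.GS.T_GFU := aGFU

/-- theorem (G), finite form -/
theorem gft : Pool.Agent.H93.GS.T_GFT := Pool.Agent.H93.GS.gft_of_gfu aGFU

end Pool.Agent.H22.GS.Fin
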