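import Pool.Agent.H22.GS.Defs

/-!
# Theorem (G), section 1 (MP_c59857_nt): statements

The inequality of Bessel below the logarithm with an arbitrary threshold `th` and an arbitrary
precision `δ`. The statements FAM CND STA MNT LVD END DVF DVO HFC HFT LSV QSU WIN BLU BLL WN1 WN2
WN3 WNT ENB of `Pool.Agent.H93.ES` are used unchanged.
-/

set_option autoImplicit false

namespace Pool.Agent.H22.GS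

open Finset Pool.Agent.H93 Pool.Agent.H18.MR Pool.Agent.H93.DE Pool.Agent.H6.N4D Pool.Agent.H93.ES

/-- CHAt. All levels: the information of the samples is at most the entropy of the words at the
beginning. -/
def T_CHAt : Prop := ∀ c : ℕ, 30 ≤ c → ∃ w₀ : ℕ, ∀ (N K : ℕ) [NeZero N] (x : ZMod N → Bool)
  (w : ℕ → ℕ), w₀ ≤ w 0 → (∀ j, j + 1 < K → 400 * w j ≤ w (j + 1)) →
  (∀ j < K, primorial (2 ^ (w j / 200)) ∣ N) →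
  ∑ j ∈ range K, infT c x (w j) ≤
    ent (unif N) (fun n => wd x (2 ^ (w 0 / 400)) n) / 2 ^ (w 0 / 400) + (1 / 2) ^ (w 0 / 4)

/-- MEAt. The mean over the samples is a mean over the window. -/
def T_MEAt : Prop := ∀ c : ℕ, ∃ w₀ : ℕ, ∀ (w m k : ℕ) (f : ℕ → ℝ) (c' : ℕ → ℂ), w₀ ≤ w →
  m < w / 200 → k ≤ 2 ^ rhoT c w →
  (∑ e : Fin (2 ^ rhoT c w) → Fin (2 ^ (w - rhoT c w)), smp f m c' e k) /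
      ((2 : ℂ) ^ (w - rhoT c w)) ^ (2 ^ rhoT c w) =
    (∑ t ∈ range (2 ^ w + 2 ^ m), ((f t * wt m (k * 2 ^ (w - rhoT c w)) t : ℝ) : ℂ) * c' t) /
      2 ^ w

/-- EXAt. The exponential moments of the tests (A) under independence. -/
def T_EXAt : Prop := ∀ c : ℕ, 30 ≤ c → ∃ (C : ℝ) (w₀ : ℕ), 1 ≤ C ∧ ∀ (w m : ℕ) (f : ℕ → ℝ)
  (α : ℝ), w₀ ≤ w → w / 400 ≤ m → m < w / 200 → (∀ t, |f t| ≤ 1) →
  ∑ q ∈ oct m, (∑ r₀ ∈ range q, avE (2 ^ rhoT c w) (2 ^ (w - rhoT c w)) (fun e =>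
      ∑ k ∈ range (2 ^ rhoT c w + 1),
        Real.exp ((w : ℝ) / 10 ^ 6 * ‖smp f m (kA q r₀ α) e k‖ ^ 2))) / q
    ≤ C * (2 ^ rhoT c w + 1) * (oct m).card

/-- ABLt. Weights of bounded variation: partial sums of the strata suffice. -/
def T_ABLt : Prop := ∀ c : ℕ, 30 ≤ c → ∃ w₀ : ℕ, ∀ (w m q r₀ : ℕ) (f : ℕ → ℝ) (α V : ℝ)
  (g : ℕ → ℂ), w₀ ≤ w →
  m < w / 200 → q ∈ oct m → (∀ t, |f t| ≤ 1) → 0 ≤ V → (∀ t < 2 ^ w, ‖g t‖ ≤ 1) →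
  ∑ t ∈ range (2 ^ w - 1), ‖g (t + 1) - g t‖ ≤ V →
  ∃ k ≤ 2 ^ rhoT c w, ‖wm f w (fun t => kA q r₀ α t * g t)‖ ^ 2 ≤
    2 * (1 + V) ^ 2 * (avE (2 ^ rhoT c w) (2 ^ (w - rhoT c w)) (fun e =>
      ‖smp f m (kA q r₀ α) e k‖ ^ 2) + 100 / (2 ^ rhoT c w) ^ 2)

/-- LVAt. One level, tests (A): frequencies independent of the prime. -/
def T_LVAt : Prop := ∀ c : ℕ, 30 ≤ c → ∀ V : ℝ, 0 ≤ V → ∃ (C : ℝ) (w₀ : ℕ), 0 < C ∧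
  ∀ (N w : ℕ) [NeZero N] (x : ZMod N → Bool) (α : ZMod N → ℝ) (g : ZMod N → ℕ → ℕ → ℂ),
  w₀ ≤ w → primorial (2 ^ (w / 200)) ∣ N →
  (∀ n, ∀ q ∈ EB.QQ w, (∀ t < 2 ^ w, ‖g n q t‖ ≤ 1) ∧
    ∑ t ∈ range (2 ^ w - 1), ‖g n q (t + 1) - g n q t‖ ≤ V) →
  avZ (fun n => ∑ q ∈ EB.QQ w, 1 / (q : ℝ) *
      ‖wm (ltr x n) w (fun t => kA q n.val (α n) t * g n q t)‖ ^ 2) ≤
    C * (infT c x w + Real.log w / w)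

/-- COVt. Boundedly many numbers cover the large Fourier coefficients. -/
def T_COVt : Prop := ∀ th : ℝ, 0 < th → th ≤ 1 → ∃ (k : ℕ) (C₀ : ℝ), 1 ≤ k ∧ 0 < C₀ ∧
  ∀ (w : ℕ) (f : ℕ → ℝ), (∀ t, |f t| ≤ 1) → ∃ S : Fin k → ℝ, CovT f w S C₀ (th / 2)

open Classical in
/-- DETt. Under independence a class modulo `q` has rarely a large correlation with a frequency
far from the large Fourier coefficients of the window. -/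
def T_DETt : Prop := ∀ (th C₀ : ℝ), 0 < th → th ≤ 1 → 0 < C₀ → ∃ (C₁ : ℝ) (w₀ : ℕ), C₀ ≤ C₁ ∧
  ∀ (k w m : ℕ) (f : ℕ → ℝ) (S : Fin k → ℝ), w₀ ≤ w → w / 400 ≤ m → m < w / 200 →
  (∀ t, |f t| ≤ 1) → CovT f w S C₀ (th / 2) →
  ∑ q ∈ oct m, (((range q).filter (fun r₀ => ∃ β : ℝ, FarT q w S C₁ β ∧
      97 / 100 * th ≤ ‖wm f w (kB q r₀ β)‖)).card : ℝ) / q ≤ (1 / 2) ^ (m / 8) * (oct m).card

/-- LVBt. One level, tests (B): far frequencies. -/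
def T_LVBt : Prop := ∀ (th C₀ : ℝ) (k : ℕ), 0 < th → th ≤ 1 → 0 < C₀ → ∃ c₀ : ℕ, ∀ c : ℕ,
  c₀ ≤ c → ∃ (C C₁ : ℝ) (w₀ : ℕ), 0 < C ∧ 0 < C₁ ∧
  ∀ (N w : ℕ) [NeZero N] (x : ZMod N → Bool) (S : ZMod N → Fin k → ℝ), w₀ ≤ w →
  primorial (2 ^ (w / 200)) ∣ N → (∀ n, CovT (ltr x n) w (S n) C₀ (th / 2)) →
  avZ (fun n => ∑ q ∈ EB.QQ w, 1 / (q : ℝ) * EB.ind (∃ β : ℝ, FarT q w (S n) C₁ β ∧
      th ≤ ‖wm (ltr x n) w (kB q n.val β)‖)) ≤ C * infT c x w + (1 / 2) ^ (w / 10 ^ 5)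

/-- LVt. One level, tests with the best lifts of given frequencies. -/
def T_LVt : Prop := ∀ th : ℝ, 0 < th → th ≤ 1 → ∃ c₀ : ℕ, ∀ c : ℕ, c₀ ≤ c →
  ∃ (C : ℝ) (w₀ : ℕ), 0 < C ∧ ∀ (N w : ℕ) [NeZero N] (x : ZMod N → Bool)
  (β : ZMod N → ℕ → ℝ), w₀ ≤ w → primorial (2 ^ (w / 200)) ∣ N →
  ∃ α : ZMod N → ℕ → ℝ, (∀ n, ∀ q ∈ EB.QQ w, ∃ b : ℤ, α n q = β n q + (b : ℝ) / q) ∧
  avZ (fun n => ∑ q ∈ EB.QQ w, 1 / (q : ℝ) *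
      (EB.ind (th ≤ ‖wm (ltr x n) w (kB q n.val (β n q))‖) *
        ‖wm (ltr x n) w (kA q n.val (α n q))‖ ^ 2)) ≤ C * (infT c x w + Real.log w / w)

/-- CYt. All levels on the cyclic group. -/
def T_CYt : Prop := ∀ th : ℝ, 0 < th → th ≤ 1 → ∃ (C : ℝ) (w₀ : ℕ), 0 < C ∧
  ∀ (N K : ℕ) [NeZero N] (x : ZMod N → Bool)
  (w : ℕ → ℕ), w₀ ≤ w 0 → (∀ j, j + 1 < K → 400 * w j ≤ w (j + 1)) →
  (∀ j < K, primorial (2 ^ (w j / 200)) ∣ N) →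
  (∀ (α : ℕ → ZMod N → ℝ) (g : ℕ → ZMod N → ℕ → ℕ → ℂ),
    (∀ j < K, ∀ n, ∀ q ∈ EB.QQ (w j), (∀ t < 2 ^ w j, ‖g j n q t‖ ≤ 1) ∧
      ∑ t ∈ range (2 ^ w j - 1), ‖g j n q (t + 1) - g j n q t‖ ≤ 10) →
    ∑ j ∈ range K, avZ (fun n => ∑ q ∈ EB.QQ (w j), 1 / (q : ℝ) *
      ‖wm (ltr x n) (w j) (fun t => kA q n.val (α j n) t * g j n q t)‖ ^ 2) ≤
    C * (ent (unif N) (fun n => wd x (2 ^ (w 0 / 400)) n) / 2 ^ (w 0 / 400) +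
      Real.log (w 0) / w 0)) ∧
  (∀ β : ℕ → ZMod N → ℕ → ℝ, ∃ α : ℕ → ZMod N → ℕ → ℝ,
    (∀ j < K, ∀ n, ∀ q ∈ EB.QQ (w j), ∃ b : ℤ, α j n q = β j n q + (b : ℝ) / q) ∧
    ∑ j ∈ range K, avZ (fun n => ∑ q ∈ EB.QQ (w j), 1 / (q : ℝ) *
      (EB.ind (th ≤ ‖wm (ltr x n) (w j) (kB q n.val (β j n q))‖) *
        ‖wm (ltr x n) (w j) (kA q n.val (α j n q))‖ ^ 2)) ≤
    C * (ent (unif N) (fun n => wd x (2 ^ (w 0 / 400)) n) / 2 ^ (w 0 / 400) +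
      Real.log (w 0) / w 0))

/-- BKt. The levels on one block of integers. -/
def T_BKt : Prop := ∀ th : ℝ, 0 < th → th ≤ 1 → ∃ (C : ℝ) (w₀ : ℕ), 0 < C ∧
  ∀ (N K i : ℕ) [NeZero N] (lam : ℕ → ℝ)
  (w : ℕ → ℕ), 1 ≤ i → (∀ n, 1 ≤ n → lam n = 1 ∨ lam n = -1) → w₀ ≤ w 0 →
  (∀ j, j + 1 < K → 400 * w j ≤ w (j + 1)) → (∀ j < K, primorial (2 ^ (w j / 200)) ∣ N) →
  (∀ (α : ℕ → ℕ → ℝ) (g : ℕ → ℕ → ℕ → ℕ → ℂ),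
    (∀ j < K, ∀ n, ∀ q ∈ EB.QQ (w j), EB.BV (2 ^ w j) n (g j n q)) →
    ∑ j ∈ range K, (∑ k ∈ range N, ∑ q ∈ EB.QQ (w j), 1 / (q : ℝ) *
      EB.zz lam q (2 ^ w j) (i * N + k) (α j (i * N + k)) (g j (i * N + k) q) ^ 2) / (N : ℝ) ≤
    C * (ent (unif N) (fun n => wd (blk lam N i) (2 ^ (w 0 / 400)) n) / 2 ^ (w 0 / 400) +
      Real.log (w 0) / w 0 + (∑ j ∈ range K, (2 : ℝ) ^ w j) / (N : ℝ))) ∧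
  (∀ β : ℕ → ℕ → ℕ → ℝ, ∃ α : ℕ → ℕ → ℕ → ℝ,
    (∀ j n, ∀ q ∈ EB.QQ (w j), ∃ b : ℤ, α j n q = β j n q + (b : ℝ) / q) ∧
    ∑ j ∈ range K, (∑ k ∈ range N, ∑ q ∈ EB.QQ (w j), 1 / (q : ℝ) *
      (EB.ind (th ≤ ‖EB.crq lam q (2 ^ w j) (i * N + k) (β j (i * N + k) q)‖) *
        EB.zz lam q (2 ^ w j) (i * N + k) (α j (i * N + k) q) (fun _ => 1) ^ 2)) / (N : ℝ) ≤
    C * (ent (unif N) (fun n => wd (blk lam N i) (2 ^ (w 0 / 400)) n) / 2 ^ (w 0 / 400) +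
      Real.log (w 0) / w 0 + (∑ j ∈ range K, (2 : ℝ) ^ w j) / (N : ℝ)))

/-- EBT. The inequality of Bessel for levels of any number, below the logarithm, with an
arbitrary threshold and precision. -/
def T_EBT : Prop := ∀ th δ : ℝ, 0 < th → 0 < δ → ∃ B : ℕ, 1 ≤ B ∧ ∀ ε : ℝ, 0 < ε →
  ∃ e : ℝ, 0 < e ∧ ∀ R : ℕ, ∃ s₀ : ℕ,
  ∀ s, s₀ ≤ s → ∃ X₀ : ℕ, ∀ (X K : ℕ) (lam : ℕ → ℝ) (m : ℕ → ℕ), X₀ ≤ X →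
    (∀ n, 1 ≤ n → lam n = 1 ∨ lam n = -1) → EB.Base lam R (2 ^ s) e X → B * s ≤ m 0 →
    (∀ i, i + 1 < K → B * m i ≤ m (i + 1)) → (∀ i < K, (4 : ℝ) ^ m i ≤ Real.log X) →
    (∀ (α : ℕ → ℕ → ℝ) (g : ℕ → ℕ → ℕ → ℕ → ℂ),
      (∀ i < K, ∀ n, ∀ q ∈ EB.QQ (m i), EB.BV (2 ^ m i) n (g i n q)) →
      EB.besSum lam X K m (fun i n _ => α i n) g ≤ ε * Real.log X) ∧
    (∀ β : ℕ → ℕ → ℕ → ℝ, ∃ α : ℕ → ℕ → ℕ → ℝ,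
      (∀ i < K, ∀ n, ∀ q ∈ EB.QQ (m i), ∃ b : ℤ,
        nd (α i n q - β i n q - (b : ℝ) / q) ≤ δ / 2 ^ m i) ∧
      ∑ i ∈ range K, EB.lg X (fun n => ∑ q ∈ EB.QQ (m i), 1 / (q : ℝ) *
        (EB.ind (th ≤ ‖EB.crq lam q (2 ^ m i) n (β i n q)‖) *
          EB.zz lam q (2 ^ m i) n (α i n q) (fun _ => 1) ^ 2)) ≤ ε * Real.log X)

end Pool.Agent.H22.GS
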