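import Pool.Agent.H22.GS.Targets
import Pool.Agent.H28.GS1.All
import Pool.Agent.H81.GS.CY
import Pool.Agent.H81.GS.LV
import Pool.Agent.H81.GS.LVBF
import Pool.Agent.H81.GS.COV
import Pool.Agent.H87.GS1.DETt
import Pool.Agent.H6.TP.EsOne
import Pool.Agent.H62.ES.WNT

/-!
# Theorem (G), section 1 (MP_c59857_nt): the statements without hypotheses
-/

set_option autoImplicit false

namespace Pool.Agent.H22.GS.All

open Pool.Agent.H22.GS Pool.Agent.H93.ES Pool.Agent.H6.TP.Es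

theorem aMEA : T_MEAt := Pool.Agent.H28.GS1.pf_MEAt
theorem aEXA : T_EXAt := Pool.Agent.H28.GS1.pf_EXAt tHFC tLSV aMEA tPIL
theorem aABL : T_ABLt := Pool.Agent.H28.GS1.pf_ABLt aMEA
theorem aLVA : T_LVAt := Pool.Agent.H28.GS1.pf_LVAt tDVO aEXA aABL tQSU
theorem aCHA : T_CHAt := Pool.Agent.H28.GS1.pf_CHAt tUNI tSTA tMNT tLVD tEND
theorem aDET : T_DETt := Pool.Agent.H87.GS1.pf_DETt
theorem aLVB : T_LVBt := Pool.Agent.H81.GS.pf_LVBt tDVO tHFT aDET
theorem aCOV : T_COVt := Pool.Agent.H81.GS.pf_COVt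
theorem aLV : T_LVt := Pool.Agent.H81.GS.pf_LVt aLVA aLVB aCOV tQSU
theorem aCY : T_CYt := Pool.Agent.H81.GS.pf_CYt aLVA aLV aCHA
theorem aBK : T_BKt := Pool.Agent.H28.GS1.pf_BKt aCY tWIN tQSU
theorem aWNT : T_WNT := Pool.Agent.H62.ES.pf_WNT tWN1 tWN2 tWN3
theorem aENB : T_ENB := tENB_of aWNT

/-- The inequality of Bessel below the logarithm, for every threshold and every precision. -/
theorem aEBT : T_EBT := Pool.Agent.H28.GS1.pf_EBT aBK tBLU aENB tQSU tMNT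

end Pool.Agent.H22.GS.All
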