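import Pool.Agent.H93.ES.Targets

/-!
# Theorem (G), section 1 (MP_c59857_nt): definitions for an arbitrary threshold

Larger samples (`rhoT c`), any number of frequencies in the cover.
-/

set_option autoImplicit false

namespace Pool.Agent.H22.GS

open Finset Pool.Agent.H18.MR Pool.Agent.H93.DE Pool.Agent.H6.N4D Pool.Agent.H93.ES

/-- the logarithm of the number of strata of a window of length `2 ^ w` -/
def rhoT (c w : ℕ) : ℕ := Nat.log 2 w + c

/-- the information of the samples of a window of length `2 ^ w` on the residues modulo the primes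
of the octaves between `w / 400` and `w / 200`, normalised -/
noncomputable def infT (c : ℕ) {N : ℕ} [NeZero N] (x : ZMod N → Bool) (w : ℕ) : ℝ :=
  ∑ m ∈ Ico (w / 400) (w / 200), avE (2 ^ rhoT c w) (2 ^ (w - rhoT c w)) (fun e =>
    info (tup x (pos e)) (2 ^ m) (primorial (2 ^ m)) (pr m)) / (2 ^ rhoT c w * 2 ^ m)

/-- the numbers `S` cover the Fourier coefficients of the window of size at least `τ` -/
def CovT (f : ℕ → ℝ) (w : ℕ) {k : ℕ} (S : Fin k → ℝ) (C₀ τ : ℝ) : Prop :=
  ∀ α : ℝ, τ ≤ ‖wm f w (fun t => ee (-(α * t)))‖ → ∃ i, nd (α - S i) ≤ C₀ / 2 ^ w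

/-- the number `β` is far from the numbers `S` modulo the fractions with denominator `q` -/
def FarT (q w : ℕ) {k : ℕ} (S : Fin k → ℝ) (C₀ : ℝ) (β : ℝ) : Prop :=
  ∀ (i : Fin k) (b : ℤ), C₀ / 2 ^ w ≤ nd (β - S i - (b : ℝ) / q)

end Pool.Agent.H22.GS
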